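import Pool.Agent.KT3.StmtsA

/-!
# KT3, row PHU: uniqueness and invariance of the support functionals
-/

set_option autoImplicit false

open Matrix Filter Topology

namespace Pool.Agent.KT3.H49

open Pool.Agent.PFS Pool.Agent.PFJ Pool.Agent.NBT Pool.Agent.KT3

variable {n K : ℕ} {C : Set (V n)} {Γ : Subgroup (GL (Fin n) ℝ)}

/-- the vertices are not zero -/
theorem v_ne (h : PCone C) {w : Fin K → V n} (hw : PES C w) (i : Fin K) : w i ≠ 0 :=
  (Pool.Agent.PFS.H60.lin n C h (Fin K) w hw).ne_zero i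

/-- the span of the open face of a vertex -/
theorem bi_single (hk : HK C Γ K) {w : Fin K → V n} (hw : IsPES C Γ w) (i : Fin K) :
    BI C w {i} = Submodule.span ℝ {w i} := by
  have hc : PCone C := hk.toCC.toPCone
  have hext := exv n C Γ hk.toCC K (by have := hk.three; omega) hk.maxc w hw i
  have hcl := hw.1.cl i
  apply le_antisymm
  · unfold BI
    rw [Submodule.span_le]
    rintro y ⟨ε, hε, h1, h2⟩
    rw [fS_single] at h1 h2
    have hy : y ∈ closure C := by
      have h3 := hc.cl_add h2 (hc.cl_smul hcl hε.le)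
      rwa [sub_add_cancel] at h3
    have h3 : ε⁻¹ • w i - y ∈ closure C := by
      have h4 := hc.cl_smul h1 (inv_pos.2 hε).le
      rwa [smul_sub, smul_smul, inv_mul_cancel₀ hε.ne', one_smul] at h4
    obtain ⟨a, ha⟩ := hext y hy _ h3
    rw [ha]
    exact Submodule.smul_mem _ _ (Submodule.mem_span_singleton_self _)
  · rw [Submodule.span_singleton_le_iff_mem]
    apply Submodule.subset_span
    refine ⟨1, one_pos, ?_, ?_⟩
    · rw [fS_single, one_smul, sub_self]
      exact hc.zero_cl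
    · rw [fS_single, one_smul, sub_self]
      exact hc.zero_cl

/-- there is a functional with the kernel description -/
theorem base (wip : WipStmt) (hk : HK C Γ K) {w : Fin K → V n} (hw : IsPES C Γ w) (i : Fin K) :
    ∃ φ0 : V n →ₗ[ℝ] ℝ, ∀ x, Pool.Agent.PCO.Sml C (fS w {i}ᶜ) (x - φ0 x • w i) ∧
      (φ0 x = 0 → Pool.Agent.PCO.Sml C (fS w {i}ᶜ) x) := by
  have hc : PCone C := hk.toCC.toPCone
  have hHI : HI C Γ K {i} 1 := by
    refine ⟨hk, ?_⟩
    intro w' hw'
    rw [bi_single hk hw' i]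
    exact (finrank_span_singleton (K := ℝ) (v_ne hc hw'.1 i)).le
  have hWI : WI C Γ {i} 1 w := by
    refine ⟨hw, ?_, ?_, ?_⟩
    · rw [bi_single hk hw i]
      exact finrank_span_singleton (v_ne hc hw.1 i)
    · intro j hj
      rw [Finset.mem_singleton.1 hj, bi_single hk hw i]
      exact Submodule.mem_span_singleton_self _
    · intro v hv hvc
      rw [bi_single hk hw i] at hv
      obtain ⟨c, rfl⟩ := Submodule.mem_span_singleton.1 hv
      have h1 : ∑ j, (if j = i then c else 1) • w j = c • w i + fS w {i}ᶜ := by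
        rw [← Finset.sum_add_sum_compl {i} (fun j => (if j = i then c else 1) • w j)]
        rw [Finset.sum_singleton, if_pos rfl]
        congr 1
        unfold fS
        apply Finset.sum_congr rfl
        intro j hj
        rw [Finset.mem_compl, Finset.mem_singleton] at hj
        rw [if_neg hj, one_smul]
      have h2 := nng n C hc (Fin K) w hw.1 (fun j => if j = i then c else 1)
        (by rw [h1]; exact hvc) i
      simp only [if_true] at h2
      exact hc.cl_smul (hw.1.cl i) h2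
  obtain ⟨p, hp⟩ := wip n C Γ K {i} 1 hHI w hWI
  have hwi : w i ≠ 0 := v_ne hc hw.1 i
  obtain ⟨j, hj⟩ : ∃ j, w i j ≠ 0 := by
    by_contra hcon
    push Not at hcon
    exact hwi (funext hcon)
  let φ0 : V n →ₗ[ℝ] ℝ := (w i j)⁻¹ • ((LinearMap.proj j : V n →ₗ[ℝ] ℝ).comp p)
  have hφ : ∀ x, p x = φ0 x • w i := by
    intro x
    have h1 := hp.mem x
    rw [bi_single hk hw i] at h1
    obtain ⟨c, hcx⟩ := Submodule.mem_span_singleton.1 h1
    have h2 : φ0 x = c := by
      change (w i j)⁻¹ * (p x) j = c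
      rw [← hcx, Pi.smul_apply, smul_eq_mul]
      field_simp
    rw [h2, hcx]
  have hpi : p (w i) = w i := by
    apply hp.idB
    rw [bi_single hk hw i]
    exact Submodule.mem_span_singleton_self _
  refine ⟨φ0, fun x => ⟨?_, ?_⟩⟩
  · apply (hp.ker _).1
    rw [map_sub, map_smul, hpi, hφ x, sub_self]
  · intro h0
    apply (hp.ker _).1
    rw [hφ x, h0, zero_smul]

/-- nonnegative functionals vanish on small vectors -/
theorem van (hc : PCone C) {f' : V n} {ψ : V n →ₗ[ℝ] ℝ} (hψ : ∀ x ∈ closure C, 0 ≤ ψ x)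
    (hf : ψ f' = 0) {u : V n} (hu : Pool.Agent.PCO.Sml C f' u) : ψ u = 0 := by
  obtain ⟨x, hx⟩ := hc.nonempty
  have hx0 : 0 ≤ ψ x := hψ x (subset_closure hx)
  have key : ∀ τ : ℝ, 0 < τ → |ψ u| ≤ τ * ψ x := by
    intro τ hτ
    obtain ⟨κ, _, h1, h2⟩ := hu x hx τ hτ
    have h3 := hψ _ h1
    have h4 := hψ _ h2
    rw [map_sub, map_add, map_smul, map_smul, hf, smul_zero, zero_add, smul_eq_mul] at h3
    rw [map_add, map_add, map_smul, map_smul, hf, smul_zero, zero_add, smul_eq_mul] at h4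
    rw [abs_le]
    constructor <;> linarith
  have h1 : |ψ u| ≤ 0 := by
    apply le_of_forall_pos_le_add
    intro ε hε
    rw [zero_add]
    have h2 : 0 < ψ x + 1 := by linarith
    have h3 := key (ε / (ψ x + 1)) (by positivity)
    refine h3.trans ?_
    rw [div_mul_eq_mul_div, div_le_iff₀ h2]
    nlinarith
  exact abs_eq_zero.1 (le_antisymm h1 (abs_nonneg _))

theorem phu (_ : FayStmt) (wip : WipStmt) (_ : PheStmt) : PhuStmt := by
  intro n C Γ K hk w hw i φ hφ
  have hc : PCone C := hk.toCC.toPCone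
  have hCC : CC C Γ := hk.toCC
  obtain ⟨φ0, h0⟩ := base wip hk hw i
  have hfz : ∀ ψ : V n →ₗ[ℝ] ℝ, (∀ j, j ≠ i → ψ (w j) = 0) → ψ (fS w {i}ᶜ) = 0 := by
    intro ψ hψ
    unfold fS
    rw [map_sum]
    apply Finset.sum_eq_zero
    intro j hj
    rw [Finset.mem_compl, Finset.mem_singleton] at hj
    exact hψ j hj
  have hgen : ∀ ψ : V n →ₗ[ℝ] ℝ, (∀ x ∈ closure C, 0 ≤ ψ x) → (∀ j, j ≠ i → ψ (w j) = 0) →
      ∀ x, ψ x = ψ (w i) * φ0 x := by
    intro ψ h1 h2 x
    have h3 := van hc h1 (hfz ψ h2) (h0 x).1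
    rw [map_sub, map_smul, sub_eq_zero, smul_eq_mul] at h3
    rw [h3, mul_comm]
  have heq : ∀ x, φ x = φ0 x := by
    intro x
    rw [hgen φ hφ.pos hφ.zero x, hφ.one, one_mul]
  have hgen' : ∀ ψ : V n →ₗ[ℝ] ℝ, (∀ x ∈ closure C, 0 ≤ ψ x) → (∀ j, j ≠ i → ψ (w j) = 0) →
      ∀ x, ψ x = ψ (w i) * φ x := by
    intro ψ h1 h2 x
    rw [heq]
    exact hgen ψ h1 h2 x
  refine ⟨hgen', ?_, ?_, ?_, ?_⟩
  · intro u
    constructor
    · intro hu
      apply (h0 u).2
      rw [← heq]
      exact hu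
    · intro hu
      exact van hc hφ.pos (hfz φ hφ.zero) hu
  · intro r hr
    refine ⟨?_, ?_, ?_⟩
    · intro x hx
      rw [LinearMap.smul_apply, smul_eq_mul]
      exact mul_nonneg (inv_pos.2 (hr i)).le (hφ.pos x hx)
    · rw [LinearMap.smul_apply, smul_eq_mul, map_smul, hφ.one, smul_eq_mul, mul_one,
        inv_mul_cancel₀ (hr i).ne']
    · intro j hj
      rw [LinearMap.smul_apply, smul_eq_mul, map_smul, hφ.zero j hj, smul_zero, mul_zero]
  · intro g hg s hs φ' hφ' u
    let ψ : V n →ₗ[ℝ] ℝ := φ'.comp (s • (Matrix.mulVecLin (g : Matrix (Fin n) (Fin n) ℝ)))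
    have hψ : ∀ x, ψ x = φ' (s • act g x) := fun x => rfl
    have h1 := hgen' ψ (fun x hx => by
      rw [hψ]
      exact hφ'.pos _ ((hCC.sact_cl_iff hg hs).2 hx)) (fun j hj => by
      rw [hψ]
      exact hφ'.zero j hj) u
    rw [hψ, hψ, hφ'.one, one_mul] at h1
    exact h1
  · intro w' hw' hww
    have h1 : 0 ≤ φ (w' i) := hφ.pos _ (hw'.1.cl i)
    have hpos : 0 < φ (w' i) := by
      rcases h1.lt_or_eq with h2 | h2
      · exact h2
      · exfalso
        have h3 : φ (∑ j, w' j) = 0 := by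
          rw [map_sum]
          apply Finset.sum_eq_zero
          intro j _
          by_cases hj : j = i
          · rw [hj]
            exact h2.symm
          · rw [hww j hj]
            exact hφ.zero j hj
        obtain ⟨M, _, hM⟩ := hc.absorb hw'.1.sum_mem (w i)
        have h4 := hφ.pos _ (subset_closure hM)
        rw [map_sub, map_smul, h3, hφ.one, smul_zero] at h4
        linarith
    refine ⟨hpos, ?_, ?_, ?_⟩
    · intro x hx
      rw [LinearMap.smul_apply, smul_eq_mul]
      exact mul_nonneg (inv_pos.2 hpos).le (hφ.pos x hx)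
    · rw [LinearMap.smul_apply, smul_eq_mul, inv_mul_cancel₀ hpos.ne']
    · intro j hj
      rw [LinearMap.smul_apply, smul_eq_mul, hww j hj, hφ.zero j hj, mul_zero]

end Pool.Agent.KT3.H49
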