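import Pool.Agent.KT3.StmtsM
import Pool.Agent.Helper13_NBT.IBF

/-!
# KT3, row ANE: existence of the class AN
-/

set_option autoImplicit false

open Matrix Filter Topology

namespace Pool.Agent.KT3.H49

open Pool.Agent.PFS Pool.Agent.PFJ Pool.Agent.NBT Pool.Agent.KT3

theorem i02_compl : (I02)ᶜ = ({1} : Finset (Fin 3)) := by decide

theorem i01_compl : (I01)ᶜ = ({2} : Finset (Fin 3)) := by decide

theorem fS_i02 {n : ℕ} (w : Fin 3 → V n) : fS w I02 = w 0 + w 2 := fS_pair w (by decide)

theorem fS_i01 {n : ℕ} (w : Fin 3 → V n) : fS w I01 = w 0 + w 1 := fS_pair w (by decide)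

/-- the box property with a multiple of the vertex 1 -/
theorem box1 {n : ℕ} {C : Set (V n)} (hc : PCone C) {w : Fin 3 → V n} (hw : PES C w)
    {L : Submodule ℝ (V n)} (hL : IB C w I02 L) {v : V n} (hv : v ∈ L) {r : ℝ}
    (h : v + r • w 1 ∈ closure C) : v ∈ closure C := by
  have h1 := (((Pool.Agent.NBT.H13.ibf n C hc 3 w hw).1 I02 L hL).2.2.1 v hv (fun _ => r)
    (by rw [i02_compl, Finset.sum_singleton]; exact h)).1
  exact h1

theorem ane (lfm : LfmStmt) : AneStmt := by
  intro n C Γ d q h3 w N had hN hcod
  have hc : PCone C := h3.toHI.toHK.toCC.toPCone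
  have hw := had.wl
  have hwcl := hw.pes.1.cl
  have hlf := (lfm n C Γ d h3 w hw).2
  refine ⟨hw, hcod, ?_, ?_⟩
  · rw [hN]
    intro x hx τ hτ
    refine ⟨1, one_pos, ?_, ?_⟩
    · have e : (1 : ℝ) • w 1 + τ • x - w 1 = τ • x := by rw [one_smul]; abel
      rw [e]
      exact hc.cl_smul (subset_closure hx) hτ.le
    · exact hc.cl_add (hc.cl_add (hc.cl_smul (hwcl 1) zero_le_one)
        (hc.cl_smul (subset_closure hx) hτ.le)) (hwcl 1)
  · intro x hx
    obtain ⟨hwx, -⟩ := hlf x hx
    obtain ⟨L, hL, hq⟩ := had.bx x hx
    have hpes : PES C (up w x) := hwx.pes.1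
    have hu0 : up w x 0 = x := Function.update_self _ _ _
    have hu1 : up w x 1 = w 1 := Function.update_of_ne (by decide) _ _
    have hu2 : up w x 2 = w 2 := Function.update_of_ne (by decide) _ _
    have hxL : x ∈ L := by
      have := hL.mem 0 (by decide)
      rwa [hu0] at this
    have h2L : w 2 ∈ L := by
      have := hL.mem 2 (by decide)
      rwa [hu2] at this
    have hf : x + w 1 + w 2 ∈ C := by
      have := hpes.sum_mem
      rw [Fin.sum_univ_three, hu0, hu1, hu2] at this
      exact this
    have hbox : ∀ v ∈ L, ∀ r : ℝ, v + r • w 1 ∈ closure C → v ∈ closure C := by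
      intro v hv r h
      exact box1 hc hpes hL hv (by rw [hu1]; exact h)
    have hdis : Disjoint L N := by
      rw [Submodule.disjoint_def]
      intro y hyL hyN
      have hs := (hN y).1 hyN
      have h1 : y ∈ closure C := by
        apply cl_of_eps (f := x + w 2)
        intro τ hτ
        obtain ⟨κ, -, -, h5⟩ := hs _ hf τ hτ
        apply hbox _ (L.add_mem hyL (L.smul_mem _ (L.add_mem hxL h2L))) (κ + τ)
        have e : y + τ • (x + w 2) + (κ + τ) • w 1 = κ • w 1 + τ • (x + w 1 + w 2) + y := by
          module
        rw [e]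
        exact h5
      have h2 : -y ∈ closure C := by
        apply cl_of_eps (f := x + w 2)
        intro τ hτ
        obtain ⟨κ, -, h4, -⟩ := hs _ hf τ hτ
        apply hbox _ (L.add_mem (L.neg_mem hyL) (L.smul_mem _ (L.add_mem hxL h2L))) (κ + τ)
        have e : -y + τ • (x + w 2) + (κ + τ) • w 1 = κ • w 1 + τ • (x + w 1 + w 2) - y := by
          module
        rw [e]
        exact h4
      exact hc.salient y h1 h2
    have hfr : Module.finrank ℝ (V n) = n := by simp
    have hle : Module.finrank ℝ L + Module.finrank ℝ N ≤ Module.finrank ℝ (V n) := by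
      have h1 := Submodule.finrank_sup_add_finrank_inf_eq L N
      rw [hdis.eq_bot, finrank_bot, add_zero] at h1
      rw [← h1]
      exact Submodule.finrank_le _
    have hdim : Module.finrank ℝ L + Module.finrank ℝ N = Module.finrank ℝ (V n) := by
      rw [hfr] at hle ⊢
      omega
    have htop : L ⊔ N = ⊤ := Submodule.eq_top_of_disjoint L N hdim.ge hdis
    have hcompl : IsCompl L N := ⟨hdis, codisjoint_iff.2 htop⟩
    refine ⟨L.projection N hcompl, ?_, ?_, ?_, ?_, ?_⟩
    · intro y
      exact Submodule.projection_apply_of_mem_left hcompl (Submodule.projection_apply_mem hcompl y)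
    · intro y hy
      have hm : y - L.projection N hcompl y ∈ N := by
        rw [← Submodule.projection_apply_eq_zero_iff hcompl, map_sub,
          Submodule.projection_apply_of_mem_left hcompl (Submodule.projection_apply_mem hcompl y),
          sub_self]
      have hs := (hN _).1 hm
      apply cl_of_eps (f := x + w 2)
      intro τ hτ
      obtain ⟨κ, -, h4, -⟩ := hs _ hf τ hτ
      apply hbox _ (L.add_mem (Submodule.projection_apply_mem hcompl y)
        (L.smul_mem _ (L.add_mem hxL h2L))) (κ + τ)
      have e : L.projection N hcompl y + τ • (x + w 2) + (κ + τ) • w 1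
          = κ • w 1 + τ • (x + w 1 + w 2) - (y - L.projection N hcompl y) + y := by
        module
      rw [e]
      exact hc.cl_add h4 hy
    · intro y
      exact Submodule.projection_apply_eq_zero_iff hcompl
    · exact Submodule.projection_apply_of_mem_left hcompl hxL
    · exact Submodule.projection_apply_of_mem_left hcompl h2L

end Pool.Agent.KT3.H49
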