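import Pool.Agent.KT3.StmtsM

/-!
# KT3, row PJL: limits of the projections
-/

set_option autoImplicit false

open Matrix Filter Topology

namespace Pool.Agent.KT3.H49

open Pool.Agent.PFS Pool.Agent.PFJ Pool.Agent.NBT Pool.Agent.KT3

/-- eventually pointwise bounded sequences of linear maps have convergent subsequences -/
theorem lin_subseq {n : ℕ} (p : ℕ → (V n →ₗ[ℝ] V n))
    (hb : ∀ e : V n, ∃ R : ℝ, ∀ᶠ m in atTop, ‖p m e‖ ≤ R) :
    ∃ (θ : ℕ → ℕ) (p' : V n →ₗ[ℝ] V n), StrictMono θ ∧
      ∀ (y : ℕ → V n) (y' : V n), Tendsto y atTop (𝓝 y') →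
        Tendsto (fun m => p (θ m) (y m)) atTop (𝓝 (p' y')) := by
  choose R hR using hb
  let E : Fin n → V n := fun j => Pi.single j 1
  let a : ℕ → (Fin n → V n) := fun m j => p m (E j)
  let B : ℝ := ∑ j, |R (E j)|
  have hB0 : 0 ≤ B := Finset.sum_nonneg fun j _ => abs_nonneg _
  have hev : ∀ᶠ m in atTop, a m ∈ Metric.closedBall (0 : Fin n → V n) B := by
    have h1 : ∀ᶠ m in atTop, ∀ j, ‖p m (E j)‖ ≤ R (E j) := by
      rw [eventually_all]
      exact fun j => hR (E j)
    filter_upwards [h1] with m hm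
    rw [mem_closedBall_zero_iff, pi_norm_le_iff_of_nonneg hB0]
    intro j
    calc ‖p m (E j)‖ ≤ R (E j) := hm j
      _ ≤ |R (E j)| := le_abs_self _
      _ ≤ B := Finset.single_le_sum (f := fun j => |R (E j)|) (fun i _ => abs_nonneg _)
        (Finset.mem_univ j)
  obtain ⟨L, -, θ, hθ, hL⟩ := (isCompact_closedBall (0 : Fin n → V n) B).tendsto_subseq'
    hev.frequently
  let p' : V n →ₗ[ℝ] V n :=
    { toFun := fun y => ∑ j, y j • L j
      map_add' := by
        intro x y
        simp only [Pi.add_apply, add_smul, Finset.sum_add_distrib]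
      map_smul' := by
        intro c y
        simp only [Pi.smul_apply, smul_eq_mul, RingHom.id_apply, Finset.smul_sum, smul_smul] }
  refine ⟨θ, p', hθ, ?_⟩
  intro y y' hy
  have h1 : ∀ m, p (θ m) (y m) = ∑ j, y m j • a (θ m) j := by
    intro m
    have e : y m = ∑ j, y m j • E j := by
      funext i
      simp [E, Finset.sum_apply, Pi.single_apply]
    conv_lhs => rw [e]
    rw [map_sum]
    refine Finset.sum_congr rfl fun j _ => ?_
    rw [map_smul]
  simp_rw [h1]
  change Tendsto _ _ (𝓝 (∑ j, y' j • L j))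
  refine tendsto_finsetSum _ fun j _ => ?_
  exact ((continuous_apply j).continuousAt.tendsto.comp hy).smul
    (((continuous_apply j).continuousAt.tendsto).comp hL)

theorem pjl : PjlStmt := by
  intro n C hc N N' hN x v a x' v' a' hx hv ha hf haN p hp
  obtain ⟨B, hB, hnor⟩ := hc.normal
  have hbd : ∀ e : V n, ∃ R : ℝ, ∀ᶠ m in atTop, ‖p m e‖ ≤ R := by
    intro e
    obtain ⟨M, hM, h1, h2⟩ := absorb_two hc hf e
    have ht : Tendsto (fun m => x m + v m + a m) atTop (𝓝 (x' + v' + a')) := (hx.add hv).add ha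
    have t1 : Tendsto (fun m => M • (x m + v m + a m) - e) atTop (𝓝 (M • (x' + v' + a') - e)) :=
      (ht.const_smul M).sub tendsto_const_nhds
    have t2 : Tendsto (fun m => M • (x m + v m + a m) + e) atTop (𝓝 (M • (x' + v' + a') + e)) :=
      (ht.const_smul M).add tendsto_const_nhds
    have t3 : Tendsto (fun m => ‖x m + v m‖) atTop (𝓝 ‖x' + v'‖) := (hx.add hv).norm
    have e1 := t1.eventually (hc.isOpen.mem_nhds h1)
    have e2 := t2.eventually (hc.isOpen.mem_nhds h2)
    have e3 : ∀ᶠ m in atTop, ‖x m + v m‖ < ‖x' + v'‖ + 1 :=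
      t3.eventually (gt_mem_nhds (by linarith))
    refine ⟨B * (2 * M * (‖x' + v'‖ + 1)) + M * (‖x' + v'‖ + 1), ?_⟩
    filter_upwards [e1, e2, e3] with m h4 h5 h6
    have hpa : p m (a m) = 0 := ((hp m).ker _).2 (haN m)
    have hpf : p m (x m + v m + a m) = x m + v m := by
      rw [map_add, map_add, (hp m).fx, (hp m).fv, hpa, add_zero]
    have h7 := (hp m).pos _ (subset_closure h4)
    have h8 := (hp m).pos _ (subset_closure h5)
    rw [map_sub, map_smul, hpf] at h7
    rw [map_add, map_smul, hpf] at h8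
    have h9 := hnor (M • (x m + v m) + p m e) ((2 * M) • (x m + v m)) h8 (by
      have e4 : (2 * M) • (x m + v m) - (M • (x m + v m) + p m e) = M • (x m + v m) - p m e := by
        module
      rw [e4]
      exact h7)
    rw [norm_smul, Real.norm_of_nonneg (by positivity)] at h9
    have h10 : ‖p m e‖ ≤ ‖M • (x m + v m) + p m e‖ + ‖M • (x m + v m)‖ := by
      have e5 : p m e = (M • (x m + v m) + p m e) - M • (x m + v m) := by abel
      calc ‖p m e‖ = ‖(M • (x m + v m) + p m e) - M • (x m + v m)‖ := by rw [← e5]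
        _ ≤ _ := norm_sub_le _ _
    rw [norm_smul, Real.norm_of_nonneg hM.le] at h10
    have h11 : B * (2 * M * ‖x m + v m‖) ≤ B * (2 * M * (‖x' + v'‖ + 1)) := by gcongr
    have h12 : M * ‖x m + v m‖ ≤ M * (‖x' + v'‖ + 1) := by gcongr
    linarith
  obtain ⟨θ, p', hθ, hlim⟩ := lin_subseq p hbd
  refine ⟨θ, p', hθ, ?_, hlim⟩
  have hcst : ∀ y : V n, Tendsto (fun m => p (θ m) y) atTop (𝓝 (p' y)) := fun y =>
    hlim (fun _ => y) y tendsto_const_nhds
  refine ⟨?_, ?_, ?_, ?_, ?_⟩
  · intro y
    have h1 := hlim (fun m => p (θ m) y) (p' y) (hcst y)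
    have h2 : (fun m => p (θ m) (p (θ m) y)) = fun m => p (θ m) y := by
      funext m
      exact (hp (θ m)).idm y
    rw [h2] at h1
    exact tendsto_nhds_unique h1 (hcst y)
  · intro y hy
    exact isClosed_closure.mem_of_tendsto (hcst y) (Eventually.of_forall fun m => (hp (θ m)).pos y hy)
  · intro y
    constructor
    · intro h0
      have h1 : Tendsto (fun m => y - p (θ m) y) atTop (𝓝 (y - p' y)) :=
        tendsto_const_nhds.sub (hcst y)
      rw [h0, sub_zero] at h1
      refine hN.2 θ _ y hθ ?_ h1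
      intro m
      rw [← (hp (θ m)).ker, map_sub, (hp (θ m)).idm, sub_self]
    · intro hy
      obtain ⟨z, hz, hzt⟩ := hN.1 y hy
      have h1 := hlim (fun m => z (θ m)) y (hzt.comp hθ.tendsto_atTop)
      have h2 : (fun m => p (θ m) (z (θ m))) = fun _ => (0 : V n) := by
        funext m
        exact ((hp (θ m)).ker _).2 (hz (θ m))
      rw [h2] at h1
      exact (tendsto_nhds_unique h1 tendsto_const_nhds)
  · have h1 := hlim (fun m => x (θ m)) x' (hx.comp hθ.tendsto_atTop)
    have h2 : (fun m => p (θ m) (x (θ m))) = fun m => x (θ m) := by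
      funext m
      exact (hp (θ m)).fx
    rw [h2] at h1
    exact (tendsto_nhds_unique h1 (hx.comp hθ.tendsto_atTop))
  · have h1 := hlim (fun m => v (θ m)) v' (hv.comp hθ.tendsto_atTop)
    have h2 : (fun m => p (θ m) (v (θ m))) = fun m => v (θ m) := by
      funext m
      exact (hp (θ m)).fv
    rw [h2] at h1
    exact (tendsto_nhds_unique h1 (hv.comp hθ.tendsto_atTop))

end Pool.Agent.KT3.H49
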