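import Pool.Agent.Helper49_KT3.ANE
import Pool.Agent.Helper49_KT3.PHU

/-!
# KT3, row PRA: the first coordinate of a limit pair vanishes
-/

set_option autoImplicit false

open Matrix Filter Topology

namespace Pool.Agent.KT3.H49

open Pool.Agent.PFS Pool.Agent.PFJ Pool.Agent.NBT Pool.Agent.KT3

theorem pra (wip : WipStmt) (wif : WifStmt) (lfo : LfoStmt) (lfm : LfmStmt) (phe : PheStmt)
    (_phu : PhuStmt) : PraStmt := by
  intro n C Γ d q h3 w N y b b' hpr
  have hc : PCone C := h3.toHI.toHK.toCC.toPCone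
  have hw := hpr.an.wl
  obtain ⟨N', hN'⟩ := hpr.an'
  have hw' := hN'.wl
  have hu0 : up w y 0 = y := Function.update_self _ _ _
  have hu1 : up w y 1 = w 1 := Function.update_of_ne (by decide) _ _
  have hu2 : up w y 2 = w 2 := Function.update_of_ne (by decide) _ _
  have h0m : w 0 ∈ BI C w I01 := hw.box.mem 0 (by decide)
  have h1m : w 1 ∈ BI C w I01 := hw.box.mem 1 (by decide)
  have hcompl : fS w (I01)ᶜ = w 2 := by
    rw [i01_compl]
    exact fS_single w 2
  have key : ∀ pr : V n →ₗ[ℝ] V n, PrI C w I01 pr → pr y = w 0 + b • w 1 := by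
    intro pr hp
    have h1 : pr (y - w 0 - b • w 1) = 0 := by
      rw [hp.ker, hcompl]
      exact hpr.pr
    rw [map_sub, map_sub, map_smul, hp.idB _ h0m, hp.idB _ h1m] at h1
    rw [sub_sub, sub_eq_zero] at h1
    exact h1
  have hφ : ∀ φ : V n →ₗ[ℝ] ℝ, Ph C w 0 φ → φ y = 1 := by
    intro φ hf
    have h1 := van hc hf.pos (hf.zero 2 (by decide)) hpr.pr
    rw [map_sub, map_sub, map_smul, hf.one, hf.zero 1 (by decide)] at h1
    simpa [sub_eq_zero] using h1
  have hb : b = 0 := by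
    rcases hpr.b0.eq_or_lt with h | hbpos
    · exact h.symm
    exfalso
    obtain ⟨pr, hp⟩ := wip n C Γ 3 I01 d h3.toHI w hw
    obtain ⟨p, hp'⟩ := wip n C Γ 3 I01 d h3.toHI (up w y) hw'
    obtain ⟨φ, hf⟩ := phe n C Γ 3 h3.toHI.toHK (up w y) hw'.pes 0
    have hly : Lf C (up w y) y := by
      have := (lfm n C Γ d h3 (up w y) hw').1
      rwa [hu0] at this
    have h5 := ((lfo n C Γ d h3 (up w y) w hw' hw hu1.symm hu2.symm φ p pr hf hp' hp).2.2 y hly).1
    rw [key pr hp] at h5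
    apply h5.non
    have hunit := ((wif n C Γ 3 I01 d h3.toHI w hw pr hp).2.2.2.2.2.2).1
    rw [fS_i01] at hunit
    refine ⟨h5.mem, h5.cl, ?_⟩
    intro z hz
    obtain ⟨M, hM, h6⟩ := hunit.2.2 z hz
    have hw0 := hw.pes.1.cl 0
    have hw1 := hw.pes.1.cl 1
    refine ⟨M * (1 + 1 / b), by positivity, ?_⟩
    have e : (M * (1 + 1 / b)) • (w 0 + b • w 1) - z
        = (M • (w 0 + w 1) - z) + ((M / b) • w 0 + (M * b) • w 1) := by
      have e1 : (M * (1 + 1 / b)) • (w 0 + b • w 1)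
          = (M * (1 + 1 / b)) • w 0 + (M * (1 + 1 / b) * b) • w 1 := by
        rw [smul_add, smul_smul]
      have e2 : M * (1 + 1 / b) * b = M * b + M := by
        field_simp
      have e3 : M * (1 + 1 / b) = M + M / b := by ring
      rw [e1, e2, e3]
      module
    rw [e]
    exact hc.cl_add h6 (hc.cl_add (hc.cl_smul hw0 (by positivity)) (hc.cl_smul hw1 (by positivity)))
  refine ⟨hb, hφ, ?_⟩
  intro pr hp
  rw [key pr hp, hb, zero_smul, add_zero]

end Pool.Agent.KT3.H49
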